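import Pool.Agent.W495.FM.Hom

/-!
# The conjecture of Tate and Beilinson for the schemes generated by small abelian varieties

An abelian variety over the field with `p ^ a` elements is modelled by `RedAV` (Honda, Tate): a
finite product of CM types `(E i, Φ i)` with Weil numbers `π i ∈ E i` that satisfy the formula of
Shimura and Taniyama; its cohomology of degree `n` consists of the alternating `n`-forms on the Tate
module `Ω ⊗ H_1`, on which the Frobenius endomorphism acts by `π`.

`IsSmall Y`: the dimension of `Y` is at most four; or `Y` is (over an algebraic closure) isogenous to
the product of a power of a simple abelian variety of dimension at most five and of a supersingular
abelian variety; or `Y` is a product of abelian varieties of dimension at most three, with a condition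
on the Galois closures of their CM fields. The Newton polygon is arbitrary.

`Generated`: the smallest class of schemes of finite type over the finite field that contains these
abelian varieties, the schemes whose motives are direct summands of sums of twists of motives of
members (for example smooth projective varieties dominated by small abelian varieties, projective
bundles, the Hilbert scheme of two points and the generalised Kummer fourfold of an abelian surface),
and that contains all of `Z`, `X`, `X ∖ Z` if it contains two of them (for example all semiabelian
varieties whose abelian part is small).

For all members the regulators from motivic homology to `ℓ`-adic homology are, in all degrees and for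
all twists, isomorphisms onto the Galois invariants, and the eigenvalue one of the Frobenius is
semisimple.
-/

namespace Pool.Agent.Results.MP_2ce3e7_ag.GeneratedBySmallAbelian

open Pool.Agent.W495.TA Pool.Agent.W495.FM

/-- `TB X` holds for all schemes `X` in the class generated by small abelian varieties. -/
theorem result (p : ℕ) [Fact p.Prime] (ν : PadicAlgCl p ≃+* ℂ) (Ω : Type) [Field Ω]
    [IsAlgClosed Ω] [CharZero Ω] (V : Type) (T : Homology Ω V) (hT : IsHomology T) (X : V)
    (hX : Generated T (IsSmallAbelian p ν T) X) : TB T X :=
  tb_small hT hX

end Pool.Agent.Results.MP_2ce3e7_ag.GeneratedBySmallAbelian
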